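import Pool.Graph.R_pool_sql_team_seeded_f0cf7b00.H482R3.EB.Main

set_option autoImplicit false

/-! Even Artin groups: words, retractions, exponents. -/

namespace Pool.Agent.H87.Art

open Pool.Agent.H482R3.EA (W inv ev EA gen Triv rels)

section words

variable {S G : Type} [Group G]

theorem ev_nil (f : S → G) : ev f [] = 1 := rfl

theorem ev_append (f : S → G) (u v : W S) : ev f (u ++ v) = ev f u * ev f v := by
  unfold ev
  rw [List.map_append, List.prod_append]

theorem ev_cons (f : S → G) (a : S × Bool) (u : W S) :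
    ev f (a :: u) = (if a.2 then f a.1 else (f a.1)⁻¹) * ev f u := by
  unfold ev
  rw [List.map_cons, List.prod_cons]

theorem ev_inv (f : S → G) (u : W S) : ev f (inv u) = (ev f u)⁻¹ :=
  Pool.Agent.H325R.EB.FPRE_ev_inv f u

theorem ev_single (f : S → G) (s : S) : ev f [(s, true)] = f s := by simp [ev]

theorem map_ev {H : Type} [Group H] (φ : G →* H) (f : S → G) (u : W S) :
    φ (ev f u) = ev (fun s => φ (f s)) u := by
  induction u with
  | nil => rw [ev_nil, ev_nil, map_one]
  | cons a u ih =>
    rw [ev_cons, ev_cons, map_mul, ih]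
    congr 1
    split_ifs
    · rfl
    · rw [map_inv]

end words

section ea

variable {S : Type} (c : S → S → ℕ)

theorem gen_rel (s t : S) (h : s ≠ t) (h0 : c s t ≠ 0) :
    (gen c s * gen c t) ^ c s t = (gen c t * gen c s) ^ c s t := by
  have h1 : ((FreeGroup.of s * FreeGroup.of t) ^ (c s t) *
      ((FreeGroup.of t * FreeGroup.of s) ^ (c s t))⁻¹ : FreeGroup S) ∈ rels c :=
    ⟨s, t, h, h0, rfl⟩
  have h2 := PresentedGroup.one_of_mem h1
  simp only [map_mul, map_inv, map_pow] at h2
  exact mul_inv_eq_one.1 h2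

theorem gen_comm (s t : S) (h : c s t = 1) : Commute (gen c s) (gen c t) := by
  by_cases e : s = t
  · rw [e]
  · have h1 := gen_rel c s t e (by omega)
    rw [h, pow_one, pow_one] at h1
    exact h1

/-- the universal property -/
def liftE {G : Type} [Group G] (f : S → G)
    (hf : ∀ s t, s ≠ t → c s t ≠ 0 → (f s * f t) ^ c s t = (f t * f s) ^ c s t) : EA c →* G :=
  PresentedGroup.toGroup (f := f) (by
    rintro r ⟨s, t, h, h0, rfl⟩
    simp only [map_mul, map_inv, map_pow, FreeGroup.lift_apply_of]
    rw [hf s t h h0, mul_inv_cancel])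

theorem liftE_gen {G : Type} [Group G] (f : S → G)
    (hf : ∀ s t, s ≠ t → c s t ≠ 0 → (f s * f t) ^ c s t = (f t * f s) ^ c s t) (s : S) :
    liftE c f hf (gen c s) = f s := PresentedGroup.toGroup.of _

theorem ea_ext {G : Type} [Group G] (φ ψ : EA c →* G)
    (h : ∀ s, φ (gen c s) = ψ (gen c s)) : φ = ψ := PresentedGroup.ext h

theorem ev_surj (g : EA c) : ∃ u : W S, ev (gen c) u = g := by
  obtain ⟨x, rfl⟩ := PresentedGroup.mk_surjective (rels c) g
  obtain ⟨L, rfl⟩ : ∃ L : List (S × Bool), FreeGroup.mk L = x := Quot.exists_rep x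
  refine ⟨L, ?_⟩
  rw [← Pool.Agent.H325R.EB.FPRE_ev_mk, ← Pool.Agent.H325R.EB.FPRE_ev_pres]
  rfl

variable [DecidableEq S]

/-- the retraction onto the parabolic subgroup of `L` -/
def ret (L : Finset S) : EA c →* EA c :=
  liftE c (fun s => if s ∈ L then gen c s else 1) (by
    intro s t h h0
    by_cases h1 : s ∈ L <;> by_cases h2 : t ∈ L
    · rw [if_pos h1, if_pos h2, gen_rel c s t h h0]
    · rw [if_pos h1, if_neg h2, one_mul, mul_one]
    · rw [if_neg h1, if_pos h2, one_mul, mul_one]
    · rw [if_neg h1, if_neg h2])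

theorem ret_gen (L : Finset S) (s : S) :
    ret c L (gen c s) = if s ∈ L then gen c s else 1 := liftE_gen c _ _ s

theorem ret_gen_mem {L : Finset S} {s : S} (h : s ∈ L) : ret c L (gen c s) = gen c s := by
  rw [ret_gen, if_pos h]

theorem ret_gen_not {L : Finset S} {s : S} (h : s ∉ L) : ret c L (gen c s) = 1 := by
  rw [ret_gen, if_neg h]

theorem ret_ret (L M : Finset S) (g : EA c) : ret c L (ret c M g) = ret c (L ∩ M) g := by
  have h : (ret c L).comp (ret c M) = ret c (L ∩ M) := by
    refine ea_ext c _ _ fun s => ?_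
    rw [MonoidHom.comp_apply, ret_gen, ret_gen c (L ∩ M)]
    by_cases h1 : s ∈ M
    · rw [if_pos h1, ret_gen]
      by_cases h2 : s ∈ L
      · rw [if_pos h2, if_pos (Finset.mem_inter.2 ⟨h2, h1⟩)]
      · rw [if_neg h2, if_neg (fun h => h2 (Finset.mem_inter.1 h).1)]
    · rw [if_neg h1, if_neg (fun h => h1 (Finset.mem_inter.1 h).2), map_one]
  exact DFunLike.congr_fun h g

/-- the subword of the letters in `L` -/
def fl (L : Finset S) (u : W S) : W S := u.filter (fun a => decide (a.1 ∈ L))

theorem ret_ev (L : Finset S) (u : W S) : ret c L (ev (gen c) u) = ev (gen c) (fl L u) := by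
  induction u with
  | nil => simp [fl, ev_nil]
  | cons a u ih =>
    rw [ev_cons, map_mul, ih]
    unfold fl
    by_cases h : a.1 ∈ L
    · rw [List.filter_cons_of_pos (by simpa using h), ev_cons]
      congr 1
      split_ifs
      · exact ret_gen_mem c h
      · rw [map_inv, ret_gen_mem c h]
    · rw [List.filter_cons_of_neg (by simpa using h)]
      split_ifs
      · rw [ret_gen_not c h, one_mul]
      · rw [map_inv, ret_gen_not c h, inv_one, one_mul]

/-- the parabolic subgroup of `L` -/
def Par (L : Finset S) : Subgroup (EA c) := MonoidHom.eqLocus (ret c L) (MonoidHom.id _)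

theorem mem_Par (L : Finset S) (g : EA c) : g ∈ Par c L ↔ ret c L g = g := Iff.rfl

theorem ret_mem (L : Finset S) (g : EA c) : ret c L g ∈ Par c L := by
  rw [mem_Par, ret_ret, Finset.inter_self]

theorem gen_mem {L : Finset S} {s : S} (h : s ∈ L) : gen c s ∈ Par c L := ret_gen_mem c h

theorem Par_mono {L M : Finset S} (h : L ⊆ M) : Par c L ≤ Par c M := by
  intro g hg
  rw [mem_Par] at hg ⊢
  rw [← hg, ret_ret, Finset.inter_eq_right.2 h]

theorem fl_mem (L : Finset S) (u : W S) : ev (gen c) (fl L u) ∈ Par c L := by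
  rw [← ret_ev]
  exact ret_mem c L _

/-- words for the elements of a parabolic subgroup -/
theorem exists_fl (L : Finset S) (g : EA c) (h : g ∈ Par c L) :
    ∃ u : W S, ev (gen c) (fl L u) = g := by
  obtain ⟨u, rfl⟩ := ev_surj c g
  exact ⟨u, by rw [← ret_ev]; exact h⟩

theorem Par_ind {L : Finset S} (P : EA c → Prop) (h1 : P 1)
    (hm : ∀ s ∈ L, ∀ g, P g → P (gen c s * g)) (hi : ∀ s ∈ L, ∀ g, P g → P ((gen c s)⁻¹ * g))
    (g : EA c) (h : g ∈ Par c L) : P g := by
  obtain ⟨u, rfl⟩ := exists_fl c L g h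
  have h2 : ∀ a ∈ fl L u, a.1 ∈ L := by
    intro a ha
    have := List.of_mem_filter ha
    simpa using this
  clear h
  generalize fl L u = v at h2
  induction v with
  | nil => exact h1
  | cons a v ih =>
    have ih' := ih (fun b hb => h2 b (List.mem_cons_of_mem _ hb))
    rw [ev_cons]
    have h4 := h2 a List.mem_cons_self
    by_cases h5 : a.2
    · rw [if_pos h5]
      exact hm _ h4 _ ih'
    · rw [if_neg h5]
      exact hi _ h4 _ ih'

/-- exponent sums -/
def xh (s : S) : EA c →* Multiplicative ℤ :=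
  liftE c (fun t => if t = s then Multiplicative.ofAdd (1 : ℤ) else 1) (by
    intro s t _ _
    rw [mul_comm])

theorem xh_gen (s t : S) :
    xh c s (gen c t) = if t = s then Multiplicative.ofAdd (1 : ℤ) else 1 := liftE_gen c _ _ t

theorem xh_self (s : S) : xh c s (gen c s) = Multiplicative.ofAdd (1 : ℤ) := by
  rw [xh_gen, if_pos rfl]

theorem xh_ne {s t : S} (h : t ≠ s) : xh c s (gen c t) = 1 := by
  rw [xh_gen, if_neg h]

theorem xh_ret {L : Finset S} {s : S} (h : s ∈ L) (g : EA c) : xh c s (ret c L g) = xh c s g := by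
  have h1 : (xh c s).comp (ret c L) = xh c s := by
    refine ea_ext c _ _ fun t => ?_
    rw [MonoidHom.comp_apply, ret_gen]
    split_ifs with h2
    · rfl
    · rw [map_one, xh_ne c]
      rintro rfl
      exact h2 h
  exact DFunLike.congr_fun h1 g

theorem xh_ret_not {L : Finset S} {s : S} (h : s ∉ L) (g : EA c) : xh c s (ret c L g) = 1 := by
  have h1 : (xh c s).comp (ret c L) = 1 := by
    refine ea_ext c _ _ fun t => ?_
    rw [MonoidHom.comp_apply, ret_gen]
    split_ifs with h2
    · rw [xh_ne c (fun e : t = s => h (e ▸ h2)), MonoidHom.one_apply]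
    · rw [map_one, MonoidHom.one_apply]
  exact DFunLike.congr_fun h1 g

theorem xh_par {L : Finset S} {s : S} (h : s ∉ L) {g : EA c} (hg : g ∈ Par c L) :
    xh c s g = 1 := by
  rw [mem_Par] at hg
  rw [← hg, xh_ret_not c h]

theorem ret_single (y : S) (g : EA c) :
    ret c {y} g = gen c y ^ (Multiplicative.toAdd (xh c y g)) := by
  have h : ret c {y} = ((zpowersHom (EA c)) (gen c y)).comp (xh c y) := by
    refine ea_ext c _ _ fun t => ?_
    rw [MonoidHom.comp_apply, ret_gen, xh_gen]
    by_cases h1 : t = y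
    · subst h1
      simp
    · rw [if_neg h1, if_neg (by simpa using h1), map_one]
  rw [h, MonoidHom.comp_apply, zpowersHom_apply]

/-- the letters of `L` commuting with `x` -/
def com (L : Finset S) (x : S) : Finset S := L.filter (fun y => c x y = 1)

omit [DecidableEq S] in
theorem com_sub (L : Finset S) (x : S) : com c L x ⊆ L := Finset.filter_subset _ _

theorem com_commute {L : Finset S} {x : S} {h : EA c} (hh : h ∈ Par c (com c L x)) :
    Commute h (gen c x) := by
  refine Par_ind c (fun h => Commute h (gen c x)) (Commute.one_left _) ?_ ?_ h hh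
  · intro s hs g hg
    exact (gen_comm c x s (Finset.mem_filter.1 hs).2).symm.mul_left hg
  · intro s hs g hg
    exact (gen_comm c x s (Finset.mem_filter.1 hs).2).symm.inv_left.mul_left hg

end ea

end Pool.Agent.H87.Art
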