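import Pool.Graph.R_pool_sql_team_seeded_f0cf7b00.H482R3.EB.Main

set_option autoImplicit false

/-! Closure properties of recursively enumerable predicates. -/

namespace Pool.Agent.H87.Art

open Pool.Agent.H482R3

open Nat.Partrec (Code)
open Nat.Partrec.Code Encodable

variable {α β : Type} [Primcodable α] [Primcodable β]

theorem re_stage (p : α → Prop) (hp : REPred p) :
    ∃ Q : α × ℕ → Prop, ComputablePred Q ∧ ∀ a, p a ↔ ∃ n, Q (a, n) := by
  have h0 : Partrec fun a : α => Part.assert (p a) fun _ => Part.some () := hp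
  obtain ⟨c, hc⟩ := exists_code.1 h0
  refine ⟨fun x => (evaln x.2 c (encode x.1)).isSome = true, ?_, fun a => ?_⟩
  · refine ComputablePred.computable_iff.2 ⟨fun x => (evaln x.2 c (encode x.1)).isSome, ?_, ?_⟩
    · apply Primrec.to_comp
      refine Primrec.option_isSome.comp (primrec_evaln.comp ((Primrec.pair (Primrec.pair
        Primrec.snd (Primrec.const c)) (Primrec.encode.comp Primrec.fst)) :
          Primrec fun x : α × ℕ => ((x.2, c), encode x.1)))
    · rfl
  · have h1 : eval c (encode a) = (Part.assert (p a) fun _ => Part.some ()).map encode := by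
      rw [hc]
      simp [encodek]
    constructor
    · intro hR
      have h2 : (encode () : ℕ) ∈ eval c (encode a) := by
        rw [h1, Part.mem_map_iff]
        exact ⟨(), Part.mem_assert hR (Part.mem_some ()), rfl⟩
      obtain ⟨k, hk⟩ := evaln_complete.1 h2
      exact ⟨k, Option.isSome_iff_exists.2 ⟨_, hk⟩⟩
    · rintro ⟨k, hk⟩
      obtain ⟨x, hx⟩ := Option.isSome_iff_exists.1 hk
      have h2 : x ∈ eval c (encode a) := evaln_sound (Option.mem_def.2 hx)
      rw [h1] at h2
      simp only [Part.mem_map_iff, Part.mem_assert_iff] at h2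
      obtain ⟨_, ⟨hR, _⟩, _⟩ := h2
      exact hR

theorem re_ex {p : α → β → Prop} (h : REPred fun x : α × β => p x.1 x.2) :
    REPred fun a => ∃ b, p a b :=
  EB.Asm.rex α β inferInstance inferInstance (fun x => p x.1 x.2) h

theorem re_and {p q : α → Prop} (hp : REPred p) (hq : REPred q) : REPred fun a => p a ∧ q a :=
  (EB.Asm.rec' α α inferInstance inferInstance).1 p q hp hq

theorem re_comp {p : β → Prop} (hp : REPred p) {f : α → β} (hf : Computable f) :
    REPred fun a => p (f a) :=
  (EB.Asm.rec' α β inferInstance inferInstance).2 p f hp hf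

theorem cp_comp {p : β → Prop} (hp : ComputablePred p) {f : α → β} (hf : Computable f) :
    ComputablePred fun a => p (f a) :=
  Pool.Agent.H806R.EB.STEP_comp hp hf

theorem re_or {p q : α → Prop} (hp : REPred p) (hq : REPred q) : REPred fun a => p a ∨ q a := by
  obtain ⟨P, hP, hP'⟩ := re_stage p hp
  obtain ⟨Q, hQ, hQ'⟩ := re_stage q hq
  have h1 : ComputablePred fun x : α × ℕ => P x ∨ Q x :=
    (EB.Asm.cp (α × ℕ) inferInstance 0).2.1 P Q hP hQ
  refine (re_ex (p := fun a n => P (a, n) ∨ Q (a, n)) h1.to_re).of_eq fun a => ?_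
  rw [hP', hQ']
  constructor
  · rintro ⟨n, h | h⟩
    · exact Or.inl ⟨n, h⟩
    · exact Or.inr ⟨n, h⟩
  · rintro (⟨n, h⟩ | ⟨n, h⟩)
    · exact ⟨n, Or.inl h⟩
    · exact ⟨n, Or.inr h⟩

theorem re_true : REPred fun _ : α => True :=
  (ComputablePred.computable_iff.2 ⟨fun _ => true, Computable.const true, by
    funext a; simp⟩ : ComputablePred fun _ : α => True).to_re

theorem re_false : REPred fun _ : α => False :=
  (ComputablePred.computable_iff.2 ⟨fun _ => false, Computable.const false, by
    funext a; simp⟩ : ComputablePred fun _ : α => False).to_re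

theorem re_const (P : Prop) : REPred fun _ : α => P := by
  by_cases h : P
  · exact re_true.of_eq fun _ => by simp [h]
  · exact re_false.of_eq fun _ => by simp [h]

theorem re_all_list {κ : Type} (l : List κ) (p : κ → α → Prop) (h : ∀ i ∈ l, REPred (p i)) :
    REPred fun a => ∀ i ∈ l, p i a := by
  induction l with
  | nil => exact re_true.of_eq fun _ => by simp
  | cons k l ih =>
    refine (re_and (h k List.mem_cons_self)
      (ih fun i hi => h i (List.mem_cons_of_mem _ hi))).of_eq fun a => ?_
    simp

theorem re_ex_list {κ : Type} (l : List κ) (p : κ → α → Prop) (h : ∀ i ∈ l, REPred (p i)) :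
    REPred fun a => ∃ i ∈ l, p i a := by
  induction l with
  | nil => exact re_false.of_eq fun _ => by simp
  | cons k l ih =>
    refine (re_or (h k List.mem_cons_self)
      (ih fun i hi => h i (List.mem_cons_of_mem _ hi))).of_eq fun a => ?_
    simp

theorem re_all_fin {κ : Type} [Fintype κ] (p : κ → α → Prop) (h : ∀ i, REPred (p i)) :
    REPred fun a => ∀ i, p i a :=
  (re_all_list (Finset.univ : Finset κ).toList p fun i _ => h i).of_eq fun a => by simp

theorem re_ex_fin {κ : Type} [Fintype κ] (p : κ → α → Prop) (h : ∀ i, REPred (p i)) :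
    REPred fun a => ∃ i, p i a :=
  (re_ex_list (Finset.univ : Finset κ).toList p fun i _ => h i).of_eq fun a => by simp

theorem cp_eq {f g : α → β} (hf : Computable f) (hg : Computable g) :
    ComputablePred fun a => f a = g a := by
  haveI : DecidableEq β := Encodable.decidableEqOfEncodable β
  have h1 : ComputablePred fun x : β × β => x.1 = x.2 :=
    (Primrec.eq (α := β)).computablePred
  exact cp_comp h1 (hf.pair hg)

theorem re_case {κ : Type} [Primcodable κ] [Fintype κ] (f : α → κ)
    (hf : Computable f) (p : κ → α → Prop) (h : ∀ k, REPred (p k)) :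
    REPred fun a => p (f a) a := by
  refine (re_ex_fin (fun k a => f a = k ∧ p k a) fun k =>
    re_and (cp_eq hf (Computable.const k)).to_re (h k)).of_eq fun a => ?_
  constructor
  · rintro ⟨k, rfl, h⟩
    exact h
  · intro h
    exact ⟨f a, rfl, h⟩

/-- forward chains -/
def CF (R : Option α → α → Prop) : Option α → List α → Prop
  | _, [] => True
  | s, a :: l => R s a ∧ CF R (some a) l

/-- last element -/
def lst (s : Option α) (l : List α) : Option α := l.foldl (fun _ b => some b) s

omit [Primcodable α] in
theorem CF_append (R : Option α → α → Prop) (l : List α) (a : α) : ∀ s,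
    CF R s (l ++ [a]) ↔ CF R s l ∧ R (lst s l) a := by
  induction l with
  | nil => intro s; simp [CF, lst]
  | cons b l ih =>
    intro s
    show R s b ∧ CF R (some b) (l ++ [a]) ↔ (R s b ∧ CF R (some b) l) ∧ R (lst (some b) l) a
    rw [ih, and_assoc]

omit [Primcodable α] in
theorem lst_reverse (C : List α) : lst none C.reverse = C.head? := by
  cases C with
  | nil => rfl
  | cons a C =>
    unfold lst
    rw [List.reverse_cons, List.foldl_append]
    rfl

omit [Primcodable α] in
theorem CF_reverse (R : Option α → α → Prop) (V : List α → Prop) (h0 : V [])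
    (h1 : ∀ a C, V (a :: C) ↔ R C.head? a ∧ V C) (C : List α) : V C ↔ CF R none C.reverse := by
  induction C with
  | nil => simp [CF, h0]
  | cons a C ih =>
    rw [h1, List.reverse_cons, CF_append, ih, lst_reverse, and_comm]

theorem re_chain (R : Option α → α → Prop) (hR : REPred fun x : Option α × α => R x.1 x.2)
    (V : List α → Prop) (h0 : V []) (h1 : ∀ a C, V (a :: C) ↔ R C.head? a ∧ V C) : REPred V := by
  obtain ⟨Q, hQ, hQ'⟩ := re_stage (fun x : Option α × α => R x.1 x.2) hR
  have hc : ComputablePred fun p : Option (α × ℕ) × (α × ℕ) =>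
      Q ((p.1.map Prod.fst, p.2.1), p.2.2) := by
    refine cp_comp hQ ?_
    apply Primrec.to_comp
    exact Primrec.pair (Primrec.pair (Primrec.option_map Primrec.fst
      ((Primrec.fst.comp Primrec.snd).to₂)) (Primrec.fst.comp Primrec.snd))
      (Primrec.snd.comp Primrec.snd)
  have h2 := EB.Asm.ch (α × ℕ) inferInstance
    (fun s a => Q ((s.map Prod.fst, a.1), a.2))
    (CF fun s a => Q ((s.map Prod.fst, a.1), a.2)) (fun s => trivial)
    (fun s a l => Iff.rfl) hc
  have h3 : ComputablePred fun x : List α × List (α × ℕ) =>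
      CF (fun s a => Q ((s.map Prod.fst, a.1), a.2)) none x.2.reverse := by
    refine cp_comp h2 (f := fun x : List α × List (α × ℕ) => (none, x.2.reverse)) ?_
    apply Primrec.to_comp
    exact Primrec.pair (Primrec.const none) (Primrec.list_reverse.comp Primrec.snd)
  have h4 : ComputablePred fun x : List α × List (α × ℕ) => x.2.map Prod.fst = x.1 := by
    refine cp_eq ?_ Computable.fst
    apply Primrec.to_comp
    exact Primrec.list_map Primrec.snd (Primrec.fst.comp Primrec.snd).to₂
  refine (re_ex (p := fun (C : List α) (C' : List (α × ℕ)) =>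
    CF (fun s a => Q ((s.map Prod.fst, a.1), a.2)) none C'.reverse ∧ C'.map Prod.fst = C)
    (re_and h3.to_re h4.to_re)).of_eq fun C => ?_
  constructor
  · rintro ⟨C', h5, rfl⟩
    induction C' with
    | nil => exact h0
    | cons a C' ih =>
      rw [List.reverse_cons, CF_append, lst_reverse] at h5
      rw [List.map_cons, h1]
      refine ⟨?_, ih h5.1⟩
      rw [hQ' (_, _)]
      refine ⟨a.2, ?_⟩
      rw [List.head?_map]
      exact h5.2
  · intro hV
    induction C with
    | nil => exact ⟨[], trivial, rfl⟩
    | cons a C ih =>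
      obtain ⟨h5, h6⟩ := (h1 a C).1 hV
      obtain ⟨C', h7, rfl⟩ := ih h6
      obtain ⟨n, hn⟩ := (hQ' ((C'.map Prod.fst).head?, a)).1 h5
      refine ⟨(a, n) :: C', ?_, rfl⟩
      rw [List.reverse_cons, CF_append, lst_reverse]
      refine ⟨h7, ?_⟩
      rw [List.head?_map] at hn
      exact hn

end Pool.Agent.H87.Art
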